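import Pool.Agent.K4H63.PI.Cases

/-!
# The Penrose inequality for maximal data and for spheres trapped on average

Initial data `(g, h)` with `g = φ(|x|)⁴ δ` spherically symmetric (on `ℝ³ ∖ {0}`, or on `ℝ³`), and
`h` a symmetric tensor field without any symmetry, with vanishing ADM momentum.  The surface `Σ` is
a centred sphere which is an apparent horizon, or, more generally, trapped on average:
`H ≤ |average of tr_Σ h|`.  The dominant energy condition is used only outside `Σ`.

Suppose that on every centred sphere `S` outside `Σ` with `|average of tr_S h| ≤ H`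

* `tr_g h` is constant (for instance `tr_g h = 0`, maximal data), or
* `tr_S h` is constant, or, more generally,
* the average over `S` of `(tr_g h)² - |h|²` is at most its value at the rotational average of `h`.

Then the Penrose inequality `m ≥ √(A/16π)` holds.  The proof: the dominant energy condition,
tested with the unit normal and averaged over the spheres, shows that the spherically symmetric
mass function of the rotational average of `tr_S h` is nondecreasing outside the outermost centred
sphere which is trapped on average.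
-/

set_option autoImplicit false

namespace Pool.Agent.W2helper24.Unused.MaximalSlices

open Pool.Agent.K4H63.PI Filter Topology

/-- The ADM momentum integral `(8 π)⁻¹ ∫_{|x| = r} (h_{ij} - (tr h) g_{ij}) ν^j dA`. -/
noncomputable def momentumFlux (G h : E → Matrix (Fin 3) (Fin 3) ℝ) (i : Fin 3) (r : ℝ) : ℝ :=
  (8 * Real.pi)⁻¹ * (r ^ 2 * ∫ ω, ∑ j, (h (r • (ω : E)) - trg G h (r • (ω : E)) •
    G (r • (ω : E))) i j * (ω : E) j ∂sph)

/-- The least area of a centred sphere enclosing the centred sphere of radius `r₁` (these spheres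
are among the surfaces enclosing it, so this is at least the least area `A` of all enclosing
surfaces). -/
noncomputable def leastArea (φ : ℝ → ℝ) (r₁ : ℝ) : ℝ := sInf (sphereArea φ '' Set.Ici r₁)

/-- `F` is constant on the centred sphere of radius `r`. -/
def ConstOn (F : E → ℝ) (r : ℝ) : Prop := ∃ c, ∀ w : E, ‖w‖ = 1 → F (r • w) = c

/-- The mean curvature `H = φ⁻² (2/r + 4 φ'/φ)` of the centred sphere of radius `r`. -/
noncomputable def sphereCurv (φ : ℝ → ℝ) (r : ℝ) : ℝ :=
  ((φ r) ^ 2)⁻¹ * (2 / r + 4 * deriv φ r / φ r)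

/-- The average over the centred sphere of radius `r` of `(tr_g h)² - |h|²` is at most
`2 a q + q² / 2`, its value at the rotational average of `h`, where `a` is the average of
`h(ν, ν)` and `q` the average of `tr_S h`. -/
def AverageCondition (φ : ℝ → ℝ) (h : E → Matrix (Fin 3) (Fin 3) ℝ) (r : ℝ) : Prop :=
  sphAvg (fun x => (trg (metric φ) h x) ^ 2 - nsq (metric φ) h x) r ≤
    2 * sphAvg (fun x => ((φ ‖x‖) ^ 4)⁻¹ * hrad h x) r * sphAvg (trS φ h) r +
      (sphAvg (trS φ h) r) ^ 2 / 2

theorem result (φ : ℝ → ℝ) (h : E → Matrix (Fin 3) (Fin 3) ℝ) (m : ℝ) (P : Fin 3 → ℝ)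
    -- `φ` is positive and `C²` on `(0, ∞)`; `h` is symmetric and `C¹` on `ℝ³ ∖ {0}`
    (hφ : Good φ) (hh : Tensor h)
    -- asymptotic flatness, total energy `m`, total momentum `P = 0`
    (flat : FlatEnd φ m) (decay : Decay h)
    (mom : ∀ i, Tendsto (momentumFlux (metric φ) h i) atTop (𝓝 (P i))) (rest : ∀ i, P i = 0)
    -- the centred sphere of radius `r₁`, and the dominant energy condition outside it
    {r₁ : ℝ} (hr₁ : 0 < r₁)
    (dec : ∀ x : E, r₁ ≤ ‖x‖ → momentumNorm (metric φ) h x ≤ energy (metric φ) h x)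
    -- the condition on each centred sphere outside it which is untrapped on average
    (cond : ∀ r : ℝ, r₁ ≤ r → |sphAvg (trS φ h) r| ≤ sphereCurv φ r →
      ConstOn (trg (metric φ) h) r ∨ ConstOn (trS φ h) r ∨ AverageCondition φ h r)
    -- the sphere is an apparent horizon `H = tr h`, or trapped on average
    (horizon : (∀ w : E, ‖w‖ = 1 → sphereCurv φ r₁ = trS φ h (r₁ • w)) ∨
      sphereCurv φ r₁ ≤ |sphAvg (trS φ h) r₁|) :
    Real.sqrt (leastArea φ r₁ / (16 * Real.pi)) ≤ Real.sqrt (m ^ 2 - ∑ i, P i ^ 2) := by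
  obtain ⟨r₀, h1, h2⟩ := avg_theorem hφ hh flat decay hr₁ dec
    (fun r hr hu => by
      have hr0 : 0 < r := hr₁.trans_le hr
      rcases cond r hr hu with h1 | h1 | h1
      · exact avgCond_of_trg hφ hh hr0 h1
      · exact avgCond_of_trS hφ hh hr0 h1
      · exact h1)
    (by
      rcases horizon with h1 | h1
      · have h2 : sphAvg (trS φ h) r₁ = sphereCurv φ r₁ := by
          rw [sphAvg_congr (G := fun _ => sphereCurv φ r₁) (fun w hw => (h1 w hw).symm),
            sphAvg_const]
        rw [h2]
        exact le_abs_self _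
      · exact h1)
  have h4 : leastArea φ r₁ ≤ sphereArea φ r₀ := by
    refine csInf_le ⟨0, ?_⟩ ⟨r₀, h1, rfl⟩
    rintro _ ⟨r, _, rfl⟩
    unfold sphereArea
    positivity
  have hpi := Real.pi_pos
  have h5 : Real.sqrt (leastArea φ r₁ / (16 * Real.pi)) ≤ m :=
    (Real.sqrt_le_sqrt (div_le_div_of_nonneg_right h4 (by positivity))).trans h2
  have hm : 0 ≤ m := (Real.sqrt_nonneg _).trans h5
  have h6 : m ^ 2 - ∑ i, P i ^ 2 = m ^ 2 := by simp [rest]
  rw [h6, Real.sqrt_sq hm]
  exact h5

end Pool.Agent.W2helper24.Unused.MaximalSlices
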